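import Pool.Agent.Helper74.DR.St

/-!
Project DR, module GAD: soundness of the composite gadget.
-/

set_option autoImplicit false

namespace Pool.Agent.Helper82.DR

open Pool.Agent.Helper74.DR

theorem map_some_inj {T : Type} {a b : List T} (h : a.map some = b.map some) : a = b :=
  List.map_injective_iff.2 (Option.some_injective T) h

/-- the guard -/
theorem guard (s : List Bool) (w : List (Option (Bool × Bool))) (τ : List (Option Bool))
    (h : Tr (some (true, false) :: some (true, true) :: w) (s.map some) τ) :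
    ∃ s', s = true :: s' ∧ Tr w (s.map some) τ := by
  rw [tr_cl] at h
  obtain ⟨x, σ', h1, h2, h3⟩ := h
  rw [tr_op] at h3
  rcases s with _ | ⟨b, s⟩
  · simp at h1
  · simp only [List.map_cons, List.cons.injEq] at h1
    obtain ⟨rfl, rfl⟩ := h1
    rcases h2 with h2 | h2
    · simp at h2
    · simp only [Option.some.injEq] at h2
      subst h2
      exact ⟨s, rfl, h3⟩

theorem drop_zero_of {l s' t : List Bool} (hl : Ev l) (j : ℕ) (hj : 2 * j < (true :: l).length)
    (h : (true :: t) = (true :: l).drop (2 * j) ++ s') : j = 0 := by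
  rcases j with _ | j
  · rfl
  · exfalso
    obtain ⟨l', hl'⟩ := ev_drop l j hl (by simp at hj; omega)
    rw [hl'] at h
    simp at h

theorem odd_cons {l : List Bool} (hl : Ev l) : Odd (true :: l).length := by
  rw [List.length_cons]
  exact (ev_even l hl).add_one

theorem hGAD (hGA : StGA) (hGB : StGB) : StGAD := by
  intro x Z₁ U₁ hZ hU s τ h
  obtain ⟨s₀, hs, h1⟩ := guard s (gA x (true :: Z₁) ++ (gB x (true :: U₁) ++
    [some (true, false), some (true, true)])) τ h
  rw [tr_append] at h1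
  obtain ⟨ρ, h2, h3⟩ := h1
  rw [tr_append] at h3
  obtain ⟨ρ₂, h4, h5⟩ := h3
  have hA : ∃ s₁ : List Bool, ρ = s₁.map some ∧ (s₁ = x :: s ∨ s = true :: (Z₁ ++ s₁)) := by
    rcases hGA Bool x (true :: Z₁) (odd_cons hZ) s ρ h2 with h6 | ⟨j, s', hj, h6, h7⟩
    · exact ⟨x :: s, h6, Or.inl rfl⟩
    · have hj0 : j = 0 := by
        rw [hs] at h6
        exact drop_zero_of hZ j hj h6
      subst hj0
      exact ⟨s', h7, Or.inr (by simpa using h6)⟩
  obtain ⟨s₁, rfl, hs₁⟩ := hA
  have hB : ∃ s₂ : List Bool, ρ₂ = s₂.map some ∧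
      ((∃ j, 2 * j < (true :: U₁).length ∧ s₂ = (true :: U₁).drop (2 * j) ++ s₁) ∨
        s₁ = x :: s₂) := by
    rcases hGB Bool x (true :: U₁) (odd_cons hU) s₁ ρ₂ h4 with ⟨j, hj, h6⟩ | ⟨s', h6, h7⟩
    · exact ⟨_, h6, Or.inl ⟨j, hj, rfl⟩⟩
    · exact ⟨s', h7, Or.inr h6⟩
  obtain ⟨s₂, rfl, hs₂⟩ := hB
  obtain ⟨s₃, hs₃, h8⟩ := guard s₂ [] τ h5
  rw [tr_nil] at h8
  subst h8
  refine ⟨⟨s₀, hs⟩, ?_⟩
  have hB : s₂ = true :: (U₁ ++ s₁) ∨ s₁ = x :: s₂ := by
    rcases hs₂ with ⟨j, hj, h6⟩ | h6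
    · left
      have hj0 : j = 0 := by
        rw [hs₃] at h6
        exact drop_zero_of hU j hj h6
      subst hj0
      simpa using h6
    · exact Or.inr h6
  rcases hs₁ with h6 | h6 <;> rcases hB with h7 | h7
  · right; right; left
    rw [h7, h6]
  · left
    rw [h6] at h7
    simp only [List.cons.injEq, true_and] at h7
    rw [h7]
  · right; left
    exact ⟨s₁, h6, by rw [h7]⟩
  · right; right; right
    refine ⟨s₃, ?_, by rw [hs₃]⟩
    rw [h6, h7, hs₃]

end Pool.Agent.Helper82.DR
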